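import Mathlib
import Pool.Agent.H8R3.QNM2

set_option autoImplicit false

namespace Pool.Agent.Results.MP_73474e_al.PrimePowerExponents

/-- Let `p` be a prime, `n ≤ p ^ k`, and let `m` be a multiple of `p ^ (k + 1)`. Then for every
Nielsen move `σ : x_i ↦ x_j x_i` of the free group of rank `n` the quotient of its automorphism
group by the normal closure of `σ ^ m` has infinitely many normal subgroups of finite index. -/
theorem result (n p k m : ℕ) (hp : p.Prime) (hn : n ≤ p ^ k) (hm : p ^ (k + 1) ∣ m)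
    (i j : Fin n) (hij : i ≠ j) (σ : MulAut (FreeGroup (Fin n)))
    (hσ : σ (FreeGroup.of i) = FreeGroup.of j * FreeGroup.of i)
    (hσ' : ∀ l : Fin n, l ≠ i → σ (FreeGroup.of l) = FreeGroup.of l) :
    Set.Infinite {N : Subgroup (MulAut (FreeGroup (Fin n)) ⧸
        Subgroup.normalClosure ({σ ^ m} : Set (MulAut (FreeGroup (Fin n))))) |
      N.Normal ∧ N.FiniteIndex} :=
  Pool.Agent.H8R3.QNM2.main hp hn hm hij ⟨hσ, hσ'⟩

end Pool.Agent.Results.MP_73474e_al.PrimePowerExponents
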